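import Pool.Agent.Q329.SK.Main

/-!
# The Skolem Problem for given initial values and almost all recurrences

`IsSeq c a u` (`Pool/Agent/H884R2/Sko/Density.lean`): `u` is the integer sequence with
`u_(n+d) = c_1 u_(n+d-1) + ... + c_d u_n` and the initial values `a = (u_0, ..., u_(d-1))`.
`IsLRS z u` (`Pool/Agent/H692R2/USS/LRS.lean`): the input `z` codes the sequence `u`.

If an initial value is zero then the sequence has a zero. We show that there is no other reason for
a zero, for almost all recurrences: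

(1) Fixed initial values, up to any power of `H`. Let `a` be ANY vector of nonzero initial values of
size at most `H ^ B`. For all but a proportion `H ^ (-δ)` of the recurrences `c` in any cube of side
`2 H + 1` (with an arbitrary centre) the sequence has a certificate: a prime `p ≤ (log H) ^ A` which
divides no term, modulo which the sequence has period `p - 1`; and the algorithm `f`, which never
errs, recognises that there is no zero. The constants `A` and `δ` depend on the order `d` and on `B`
only, not on the initial values.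

(2) All small initial values at the same time. For all but a proportion `H ^ (-δ)` of the
recurrences `c` in any cube of side `2 H + 1` the following holds for ALL the vectors `a` of initial
values of size at most `H ^ δ`: the sequence has a zero if and only if one of its initial values is
zero, and if it has no zero then it has such a certificate.

The starting results of this problem treat almost all initial values (`AlmostAllInitialValues`,
`PolylogCertificates`) or random recurrences together with random initial values (`SmoothedAnalysis`,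
`AllSmallPolynomials`); here the initial values are arbitrary, for example `(1, 1, ..., 1)`.

Proof. Let `p ≡ 1` modulo `k = 2 d` be a prime which divides no initial value, and let `S` be a set of
`d` elements of order dividing `T = (p - 1) / k` modulo `p`. For the recurrence with the roots
`S / t`, `t ≠ 0`, the term with index `n` is zero if and only if `t` is a root of a polynomial of
degree less than `d`, whose coefficients are the initial values times the values at `n` of the
fundamental solutions for the roots `S`; it is not the zero polynomial, and it depends only on `n`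
modulo `T`. So at most `T (d - 1) ≤ (p - 1) / 2` of the scalings `t` give a sequence with a zero
modulo `p`. Hence a positive proportion of the recurrences modulo `p` is good for the given initial
values, and the sieve of the starting result `SmoothedAnalysis`, in a form in which the primes
dividing the initial values are left out, gives (1), uniformly in the initial values; (2) follows.
-/

set_option autoImplicit false

namespace Pool.Agent.Results.MP_8d13b5_lc.SmallInitialValues

open Pool.Agent.H684R3.Smo Pool.Agent.H884R2.Sko Pool.Agent.H692R2.USS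

/-- Some prime `p ≤ Y` divides no term of the sequence `u`, which has period `p - 1` modulo `p`, and
the function `f` returns `true` on every input which codes `u`. -/
def Certified (f : ℕ × (List (ℕ × ℕ) × List (ℕ × ℕ)) → Bool) (Y : ℝ) (u : ℕ → ℤ) : Prop :=
  (∃ p : ℕ, p.Prime ∧ (p : ℝ) ≤ Y ∧ ∀ n, ¬ (p : ℤ) ∣ u n ∧ (p : ℤ) ∣ u (n + (p - 1)) - u n) ∧
    ∀ z, IsLRS z u → f (⌊Y⌋₊, z) = true

theorem card_le {d : ℕ} (b : Fin d → ℤ) (H : ℕ) (P Q : (Fin d → ℤ) → Prop)
    (h : ∀ c, Q c → P c) {x : ℝ}
    (hx : (Nat.card {c : Fin d → ℤ // c ∈ bx b H ∧ ¬ Q c} : ℝ) ≤ x) :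
    (Nat.card {c : Fin d → ℤ // (∀ i, |c i - b i| ≤ (H : ℤ)) ∧ ¬ P c} : ℝ) ≤ x := by
  refine le_trans ?_ hx
  have hmem : ∀ c : Fin d → ℤ, (∀ i, |c i - b i| ≤ (H : ℤ)) → c ∈ bx b H := by
    intro c hc
    unfold bx
    rw [Fintype.mem_piFinset]
    intro i
    rw [Finset.mem_Icc]
    have := abs_le.1 (hc i)
    constructor <;> linarith [this.1, this.2]
  have hfin := finite_sub b H (fun c => ¬ Q c)
  have hle := Nat.card_le_card_of_injective
    (fun c : {c : Fin d → ℤ // (∀ i, |c i - b i| ≤ (H : ℤ)) ∧ ¬ P c} =>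
      (⟨c.1, hmem c.1 c.2.1, fun hq => c.2.2 (h c.1 hq)⟩ :
        {c : Fin d → ℤ // c ∈ bx b H ∧ ¬ Q c}))
    (fun x y hxy => Subtype.ext (congrArg (fun z => z.1) hxy))
  exact_mod_cast hle

theorem result :
    -- one total computable function, which reads all linear recurrence sequences and never errs
    ∃ f : ℕ × (List (ℕ × ℕ) × List (ℕ × ℕ)) → Bool, Computable f ∧
      (∀ (y : ℕ) (z : List (ℕ × ℕ) × List (ℕ × ℕ)) (u : ℕ → ℤ), IsLRS z u → f (y, z) = true →
        ∀ n, u n ≠ 0) ∧
      -- (1) given initial values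
      (∀ d B : ℕ, 1 ≤ d → ∃ A δ : ℝ, 0 < A ∧ 0 < δ ∧ ∃ H₀ : ℕ, ∀ H : ℕ, H₀ ≤ H →
        ∀ a : Fin d → ℤ, (∀ i, a i ≠ 0) → (∀ i, |a i| ≤ (H : ℤ) ^ B) → ∀ b : Fin d → ℤ,
          (Nat.card {c : Fin d → ℤ // (∀ i, |c i - b i| ≤ (H : ℤ)) ∧
            ¬ ∀ u, IsSeq c a u → Certified f (Real.log H ^ A) u} : ℝ) ≤
            (H : ℝ) ^ (-δ) * (2 * H + 1 : ℝ) ^ d) ∧
      -- (2) all small initial values
      ∀ d : ℕ, 1 ≤ d → ∃ A δ : ℝ, 0 < A ∧ 0 < δ ∧ ∃ H₀ : ℕ, ∀ H : ℕ, H₀ ≤ H →
        ∀ b : Fin d → ℤ,
          (Nat.card {c : Fin d → ℤ // (∀ i, |c i - b i| ≤ (H : ℤ)) ∧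
            ¬ ∀ a : Fin d → ℤ, (∀ i, |(a i : ℝ)| ≤ (H : ℝ) ^ δ) → ∀ u, IsSeq c a u →
              ((∃ n, u n = 0) ↔ ∃ i, a i = 0) ∧
              ((∀ n, u n ≠ 0) → Certified f (Real.log H ^ A) u)} : ℝ) ≤
            (H : ℝ) ^ (-δ) * (2 * H + 1 : ℝ) ^ d := by
  obtain ⟨f, hf, hfe⟩ := t10
  have hcert : ∀ (Y : ℝ) (u : ℕ → ℤ), Pool.Agent.TH838.SK.Cert Y u → Certified f Y u := by
    intro Y u h
    refine ⟨h, fun z hz => ?_⟩
    obtain ⟨p, hp, hpY, hpv⟩ := h
    rw [hfe _ _ _ hz]
    exact ⟨p, Nat.le_floor hpY, hp, fun n => (hpv n).1⟩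
  refine ⟨f, hf, fun y z u hu ht n hn => ?_, fun d B hd => ?_, fun d hd => ?_⟩
  · obtain ⟨q, _, _, hq⟩ := (hfe y z u hu).1 ht
    apply hq n
    rw [hn]
    exact dvd_zero _
  · obtain ⟨A, δ, hA, hδ, H₀, h⟩ := Pool.Agent.Q329.SK.one d (B * d) hd
    refine ⟨A, δ, hA, hδ, H₀, fun H hH a ha haB b => ?_⟩
    rw [mul_comm]
    refine card_le b H _ (fun c => ∀ u, IsSeq c a u → Pool.Agent.TH838.SK.Cert (Real.log H ^ A) u)
      (fun c hc u hu => hcert _ u (hc u hu)) (h H hH a ha ?_ b)
    calc ∏ i, (a i).natAbs ≤ ∏ _i : Fin d, H ^ B := by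
          apply Finset.prod_le_prod' fun i _ => ?_
          have h1 := haB i
          have h2 : (((a i).natAbs : ℕ) : ℤ) ≤ ((H ^ B : ℕ) : ℤ) := by
            rw [Int.natCast_natAbs]
            push_cast
            exact h1
          exact_mod_cast h2
      _ = H ^ (B * d) := by
          rw [Finset.prod_const, Finset.card_univ, Fintype.card_fin, pow_mul]
  · obtain ⟨A, δ, hA, hδ, H₀, h⟩ := Pool.Agent.Q329.SK.all d hd
    refine ⟨A, δ, hA, hδ, H₀, fun H hH b => ?_⟩
    rw [mul_comm]
    refine card_le b H _ (fun c => ∀ a : Fin d → ℤ, (∀ i, a i ≠ 0) →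
      (∀ i, |(a i : ℝ)| ≤ (H : ℝ) ^ δ) → ∀ u, IsSeq c a u →
        Pool.Agent.TH838.SK.Cert (Real.log H ^ A) u) ?_ (h H hH b)
    intro c hc a ha u hu
    by_cases h0 : ∀ i, a i ≠ 0
    · have h1 := hc a h0 ha u hu
      have h2 : ∀ n, u n ≠ 0 := by
        intro n hn
        obtain ⟨p, _, _, hp⟩ := h1
        apply (hp n).1
        rw [hn]
        exact dvd_zero _
      refine ⟨⟨fun ⟨n, hn⟩ => absurd hn (h2 n), fun ⟨i, hi⟩ => absurd hi (h0 i)⟩, fun _ => hcert _ u h1⟩
    · push Not at h0
      obtain ⟨i, hi⟩ := h0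
      have h1 : u i = 0 := by rw [hu.1 i, hi]
      exact ⟨⟨fun _ => ⟨i, hi⟩, fun _ => ⟨i, h1⟩⟩, fun h => absurd h1 (h i)⟩

end Pool.Agent.Results.MP_8d13b5_lc.SmallInitialValues
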