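import Pool.Agent.TH997.SP.Cons

/-!
# The Skolem Problem is decidable outside a set of indices which is as sparse as we please

Let `F` be a computable, monotone, unbounded function with `F N ≤ log₂ N`; it may grow as slowly as we please. There is a
decidable set `S` of indices such that at most `F N` of the numbers below `N` are not in `S` and

* there is an algorithm which decides, given a linear recurrence sequence of any order, whether it has a zero with index
  in `S`;
* there is an algorithm which computes the list of those isolated zeros (zeros in no infinite arithmetic progression of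
  zeros) whose index is in `S`, so the set of all the zeros outside of the sparse set.

Moreover each number `n ∉ S` is an isolated zero of a recurrence with `G(code) ≤ n`, where `G` is any computable function
given in advance.

The set `S` is obtained by removing the isolated zeros of the `j`-th recurrence from a computable number on. The proof
needs a computable upper bound for the number of isolated zeros: modulo a prime which does not divide the last coefficient
the sequence is periodic, along a class modulo this period it is identically zero or has only few zeros.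
-/

set_option autoImplicit false

namespace Pool.Agent.Results.MP_8d13b5_lc.SparseComplement

open Pool.Agent.H692R2.USS hiding IsLRS
open Pool.Agent.TH997.US Pool.Agent.TH997.SP
open scoped Classical

/-- `u` is the integer linear recurrence sequence given by the data `p = (c, a)`: the list `c` of
coefficients `c_1, ..., c_d`, where `d ≥ 1` and `c_d ≠ 0`, and the list `a` of the `d` initial
values. -/
def IsLRS (p : List ℤ × List ℤ) (u : ℕ → ℤ) : Prop :=
  p.1.length = p.2.length ∧ 1 ≤ p.1.length ∧ p.1.getD (p.1.length - 1) 0 ≠ 0 ∧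
    (∀ i, i < p.1.length → u i = p.2.getD i 0) ∧
    ∀ n : ℕ, u (n + p.1.length) =
      ∑ j ∈ Finset.range p.1.length, p.1.getD j 0 * u (n + p.1.length - 1 - j)

/-- `n` is a zero of `u` which is in no infinite arithmetic progression of zeros. -/
def IsolatedZero (u : ℕ → ℤ) (n : ℕ) : Prop :=
  u n = 0 ∧ ∀ a b : ℕ, 0 < b → (∃ l, n = a + b * l) → ∃ l, u (a + b * l) ≠ 0

theorem isLRS_iff (p : List ℤ × List ℤ) (u : ℕ → ℤ) :
    IsLRS p u ↔ Val (cv p) ∧ u = sq (cv p) := by
  constructor
  · rintro ⟨h1, h2, h3, h4, h5⟩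
    have hv : Val (cv p) := (val_cv p).2 ⟨h1, h2, h3⟩
    exact ⟨hv, funext ((rec_iff hv u).1 ⟨h4, h5⟩)⟩
  · rintro ⟨hv, rfl⟩
    obtain ⟨h1, h2, h3⟩ := (val_cv p).1 hv
    obtain ⟨h4, h5⟩ := (rec_iff hv (sq (cv p))).2 fun _ => rfl
    exact ⟨h1, h2, h3, h4, h5⟩

theorem isolated_iff {p : List ℤ × List ℤ} (hv : Val (cv p)) (n : ℕ) :
    IsolatedZero (sq (cv p)) n ↔ Spor (cv p) n := by
  rw [spor_iff hv]
  constructor
  · rintro ⟨h1, h2⟩
    exact ⟨h1, fun b hb => h2 n b hb ⟨0, by simp⟩⟩
  · rintro ⟨h1, h2⟩
    refine ⟨h1, ?_⟩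
    rintro a b hb ⟨l, rfl⟩
    obtain ⟨m, hm⟩ := h2 b hb
    exact ⟨l + m, by rwa [mul_add, ← add_assoc]⟩

/-- **The Skolem Problem outside a very sparse set of indices.** -/
theorem result (F G : ℕ → ℕ) (hF : Computable F) (hG : Computable G) (hmono : Monotone F)
    (hunb : ∀ B, ∃ N, B ≤ F N) (hlog : ∀ N, F N ≤ Nat.log 2 N) :
    ∃ S : Set ℕ,
      -- `S` is decidable and its complement is sparse
      ComputablePred (fun n : ℕ => n ∈ S) ∧
      (∀ N, {n : ℕ | n < N ∧ n ∉ S}.ncard ≤ F N) ∧
      -- the numbers which are not in `S` are isolated zeros of recurrences with very small codes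
      (∀ n, n ∉ S → ∃ (p : List ℤ × List ℤ) (u : ℕ → ℤ), G (Encodable.encode p) ≤ n ∧
        IsLRS p u ∧ IsolatedZero u n) ∧
      -- the existence of a zero in `S` is decidable
      (ComputablePred fun p : List ℤ × List ℤ => ∃ u, IsLRS p u ∧ ∃ n ∈ S, u n = 0) ∧
      -- the isolated zeros in `S` can be computed
      ∃ A : List ℤ × List ℤ → List ℕ, Computable A ∧
        ∀ (p : List ℤ × List ℤ) (u : ℕ → ℤ), IsLRS p u → ∀ n, n ∈ A p ↔ n ∈ S ∧ IsolatedZero u n := by
  refine ⟨{n | ¬ RR F G n}, ?_, ?_, ?_, ?_, ?_⟩
  · exact ComputablePred.not (cp_RR hF hG hmono hunb)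
  · intro N
    have h : {n : ℕ | n < N ∧ n ∉ ({n | ¬ RR F G n} : Set ℕ)} =
        ↑((Finset.range N).filter (fun n => RR F G n)) := by
      ext n
      simp
    rw [h, Set.ncard_coe_finset]
    exact RR_card (H := G) hmono hunb N
  · intro n hn
    have hn' : RR F G n := by
      by_contra h
      exact hn h
    obtain ⟨p, h1, h2⟩ := (RR_iff hmono hunb n).1 hn'
    refine ⟨p, sq (cv p), ?_, (isLRS_iff _ _).2 ⟨h2.1, rfl⟩, (isolated_iff h2.1 n).2 h2⟩
    exact ((le_max_right _ _).trans (NN_spec (H := G) hmono hunb _).1).trans h1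
  · refine (cp_exists hF hG hmono hunb hlog).of_eq fun p => ?_
    constructor
    · rintro ⟨hv, n, h1, h2⟩
      exact ⟨sq (cv p), (isLRS_iff _ _).2 ⟨hv, rfl⟩, n, h1, h2⟩
    · rintro ⟨u, hu, n, h1, h2⟩
      obtain ⟨hv, rfl⟩ := (isLRS_iff _ _).1 hu
      exact ⟨hv, n, h1, h2⟩
  · obtain ⟨A, hA, hA'⟩ := exists_list hF hG hmono hunb
    refine ⟨A, hA, fun p u hu n => ?_⟩
    obtain ⟨hv, rfl⟩ := (isLRS_iff _ _).1 hu
    rw [hA', isolated_iff hv]
    rfl

end Pool.Agent.Results.MP_8d13b5_lc.SparseComplement
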