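import Pool.Agent.Q324.SC.SkolemMain

/-!
# The Skolem problem is decidable if it is decidable with few errors

There are about `(2 H + 1) ^ (2 n)` linear recurrences of order `n` with coefficients and initial
values in `[-H, H]`. It is shown that the Skolem problem is decidable as soon as some total
computable function errs on at most `H ^ ((1 - ε) n)` of them, up to a computable factor `K n`, for
one fixed `ε > 0`.

The reason: a sequence with characteristic polynomial `P` satisfies all recurrences with
characteristic polynomial `P Q`. For `Q` of large degree these inputs, which all define the same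
sequence, are more numerous than the errors, and a majority vote among them gives the answer.
-/

set_option autoImplicit false

namespace Pool.Agent.Results.MP_8d13b5_lc.WorstCaseFromMostInputs

open Pool.Agent.Q324.SC

lemma num (E K X a b q : ℕ) (hq : 1 ≤ q) (hX : 1 ≤ X) (hab : a ≤ q * b) (h : E ^ q ≤ K * X ^ a) :
    E ≤ K * X ^ b := by
  by_contra hc
  push Not at hc
  have h1 : (K * X ^ b) ^ q < E ^ q := Nat.pow_lt_pow_left hc (by omega)
  have h2 : K ≤ K ^ q := by
    rcases Nat.eq_zero_or_pos K with h0 | h0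
    · rw [h0]; exact Nat.zero_le _
    · exact Nat.le_self_pow (by omega) K
  have h3 : X ^ a ≤ (X ^ b) ^ q := by
    rw [← pow_mul, Nat.mul_comm]
    exact Nat.pow_le_pow_right hX hab
  have h4 : K * X ^ a ≤ (K * X ^ b) ^ q := by
    rw [mul_pow]
    exact Nat.mul_le_mul h2 h3
  omega

/-- (1) For every `q ≥ 2` the Skolem problem is decidable if and only if there are a total
computable `A` and a computable `K` such that for all `n`, `H` the number `E` of the inputs of order
`n` with entries in `[-H, H]` on which `A` errs satisfies `E ^ q ≤ K n (H + 1) ^ ((q - 2) n)`.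
(2) More precisely: it is enough that for some computable `e ≥ 1` and `K` the number of the errors
on inputs of order `d + e d` is at most `K d (H + 1) ^ (e d - 1)`. -/
theorem result :
    (∀ q : ℕ, 2 ≤ q → (ComputablePred Zero ↔
      ∃ (A : List ℤ × List ℤ → Bool) (K : ℕ → ℕ), Computable A ∧ Computable K ∧
        ∀ n H : ℕ, {p | p ∈ Inputs n H ∧ Errs A p}.encard ^ q
          ≤ ((K n * (H + 1) ^ ((q - 2) * n) : ℕ) : ℕ∞))) ∧
    (∀ (A : List ℤ × List ℤ → Bool) (e K : ℕ → ℕ), Computable A → Computable e → Computable K →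
      (∀ d, 1 ≤ e d) →
      (∀ d H : ℕ, {p | p ∈ Inputs (d + e d) H ∧ Errs A p}.encard
        ≤ ((K d * (H + 1) ^ (e d - 1) : ℕ) : ℕ∞)) → ComputablePred Zero) := by
  have h3 : ∀ (A : List ℤ × List ℤ → Bool) (e K : ℕ → ℕ), Computable A → Computable e →
      Computable K → (∀ d, 1 ≤ e d) →
      (∀ d H : ℕ, {p | p ∈ Inputs (d + e d) H ∧ Errs A p}.encard
        ≤ ((K d * (H + 1) ^ (e d - 1) : ℕ) : ℕ∞)) → ComputablePred Zero :=
    fun A e K hA he hK he1 h => skolem_correct hA he hK he1 h
  refine ⟨fun q hq => ⟨?_, ?_⟩, h3⟩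
  · rintro ⟨inst, hc⟩
    refine ⟨fun p => decide (Zero p), fun _ => 0, hc, Computable.const 0, fun n H => ?_⟩
    have h1 : {p | p ∈ Inputs n H ∧ Errs (fun p => decide (Zero p)) p} = ∅ := by
      ext p
      simp [Errs]
    rw [h1, Set.encard_empty, zero_pow (by omega)]
    simp
  · rintro ⟨A, K, hA, hK, h⟩
    obtain ⟨r, rfl⟩ : ∃ r, q = r + 2 := ⟨q - 2, by omega⟩
    have ce : Computable (fun d : ℕ => (r + 2) * (d + 1)) := by
      have : Primrec (fun d : ℕ => (r + 2) * (d + 1)) := by fun_prop
      exact this.to_comp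
    have cn : Computable (fun d : ℕ => d + (r + 2) * (d + 1)) := by
      have : Primrec (fun d : ℕ => d + (r + 2) * (d + 1)) := by fun_prop
      exact this.to_comp
    refine h3 A (fun d => (r + 2) * (d + 1)) (fun d => K (d + (r + 2) * (d + 1))) hA ce
      (hK.comp cn) (fun d => Nat.one_le_iff_ne_zero.2 (by positivity)) ?_
    intro d H
    obtain ⟨m, hm⟩ : ∃ m, m = (r + 2) * (d + 1) := ⟨_, rfl⟩
    have hm1 : 1 ≤ m := by rw [hm]; exact Nat.one_le_iff_ne_zero.2 (by positivity)
    change {p | p ∈ Inputs (d + (r + 2) * (d + 1)) H ∧ Errs A p}.encard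
        ≤ ((K (d + (r + 2) * (d + 1)) * (H + 1) ^ ((r + 2) * (d + 1) - 1) : ℕ) : ℕ∞)
    rw [← hm]
    have h1 := h (d + m) H
    obtain ⟨E, hE⟩ : ∃ E, E = {p | p ∈ Inputs (d + m) H ∧ Errs A p}.encard := ⟨_, rfl⟩
    rw [← hE] at h1 ⊢
    have hEt : E ≠ ⊤ := by
      intro ht
      rw [ht, ENat.top_pow (by omega)] at h1
      exact absurd h1 (not_le.2 (ENat.natCast_lt_top _))
    lift E to ℕ using hEt
    norm_cast at h1 ⊢
    refine num E _ _ _ _ (r + 2) (by omega) (by omega) ?_ h1
    have e1 : r + 2 - 2 = r := by omega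
    have e2 : (r + 2) * (m - 1) = (r + 2) * m - (r + 2) := by rw [Nat.mul_sub, mul_one]
    rw [e1, e2]
    have e3 : 2 * m = r * d + (r + 2) + (r * d + 4 * d + r + 2) := by
      rw [hm]
      ring
    have e4 : (r + 2) * m = r * m + 2 * m := by ring
    have e5 : r * (d + m) = r * d + r * m := by ring
    omega

end Pool.Agent.Results.MP_8d13b5_lc.WorstCaseFromMostInputs
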